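import Mathlib
import Pool.Agent.H.MP_c76eb3_co.A

namespace Pool.Agent.Results.MP_c76eb3_co.Full

open Finset Pool.Agent.H.MP_c76eb3_co

/-- A shifted standard tableau, given as the list of its cells (row, column) in decreasing order of
the entries: cells lie on or above the diagonal, and the left and upper neighbours come earlier. -/
def IsT : List (ℕ × ℕ) → Prop
  | [] => True
  | c :: l => IsT l ∧ c ∉ l ∧ c.1 ≤ c.2 ∧ (c.1 < c.2 → (c.1, c.2 - 1) ∈ l) ∧
      (0 < c.1 → (c.1 - 1, c.2) ∈ l)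

/-- the nodes of the tree -/
def Node : Type := {l : List (ℕ × ℕ) // IsT l}

/-- `b` is `a` with one more cell, holding the largest entry -/
def Child (a b : Node) : Prop := ∃ c, b.1 = c :: a.1

def shape : List (ℕ × ℕ) → Finset ℕ
  | [] => ∅
  | c :: l => mv (shape l) (c.2 - c.1)

def dg : List (ℕ × ℕ) → ℕ → ℕ
  | [], _ => 0
  | c :: l, k => dg l k + if k = c.2 - c.1 then 1 else 0

def Inv (l : List (ℕ × ℕ)) : Prop :=
  (∀ i j, (i, j) ∈ l ↔ i ≤ j ∧ i < dg l (j - i)) ∧
    (∀ k, dg l k = dg l (k + 1) + if k + 1 ∈ shape l then 1 else 0) ∧ 0 ∉ shape l ∧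
    ∑ x ∈ shape l, x = l.length

theorem add_iff {l : List (ℕ × ℕ)} (h : Inv l) (hl : IsT l) (c : ℕ × ℕ) :
    IsT (c :: l) ↔ c.1 ≤ c.2 ∧ Mv (shape l) (c.2 - c.1) ∧ c.1 = dg l (c.2 - c.1) := by
  obtain ⟨i, j⟩ := c
  obtain ⟨h1, h2, -⟩ := h
  simp only [IsT, h1, hl, true_and, Mv]
  refine and_comm.trans (and_assoc.trans (and_congr_right fun hij => ?_))
  obtain ⟨k, rfl⟩ := Nat.exists_eq_add_of_le hij
  have e1 : 0 < i → i + k - (i - 1) = k + 1 := by omega
  have a := h2 k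
  rw [Nat.add_sub_cancel_left]
  rcases k with _ | k
  · rcases i with _ | i
    · simp only [Nat.zero_add] at a ⊢
      split_ifs at a with e <;> simp [e] <;> omega
    · rw [e1 (by omega)]
      simp only [Nat.zero_add] at a ⊢
      split_ifs at a with e <;> simp [e] <;> omega
  · have b := h2 k
    have e2 : i + (k + 1) - 1 - i = k := by omega
    rw [e2]
    rcases i with _ | i
    · by_cases e : k + 1 ∈ shape l <;> by_cases e' : k + 1 + 1 ∈ shape l <;>
        simp [e, e'] at a b ⊢ <;> omega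
    · rw [e1 (by omega)]
      by_cases e : k + 1 ∈ shape l <;> by_cases e' : k + 1 + 1 ∈ shape l <;>
        simp [e, e'] at a b ⊢ <;> omega

theorem inv : ∀ l, IsT l → Inv l
  | [], _ => ⟨by simp [dg], by simp [dg, shape], by simp [shape], by simp [shape]⟩
  | c :: l, h => by
    have I := inv l h.1
    obtain ⟨a, b, d⟩ := (add_iff I h.1 c).1 h
    obtain ⟨i, j⟩ := c
    obtain ⟨h1, h2, h3, h4⟩ := I
    dsimp only at a b d
    refine ⟨fun p q => ?_, fun k => ?_, ?_, ?_⟩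
    · simp only [List.mem_cons, h1, dg, Prod.mk.injEq]
      split_ifs with e
      · rw [e]; omega
      · omega
    · have := h2 k
      simp only [dg, shape, mem_mv]
      obtain ⟨b1, b2⟩ := b
      generalize j - i = t at *
      by_cases e1 : k = t
      · subst e1; simp [b2] at this ⊢; omega
      · by_cases e2 : k + 1 = t
        · subst e2
          have b3 := b1.resolve_left (by omega)
          simp [b3] at this ⊢
          omega
        · simp [e1, e2, this]
    · simp only [shape, mem_mv]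
      exact fun h => h.elim (by omega) fun h => h3 h.2
    · simp only [shape, List.length_cons]
      rw [sum_mv b, h4]

/-- the child of `a` given by the move `k` -/
def ch (a : Node) (k : ℕ) (h : Mv (shape a.1) k) : Node :=
  ⟨(dg a.1 k, dg a.1 k + k) :: a.1, (add_iff (inv _ a.2) a.2 _).2 (by simpa using h)⟩

theorem ch_child (a : Node) (k : ℕ) (h : Mv (shape a.1) k) : Child a (ch a k h) := ⟨_, rfl⟩

theorem ch_shape (a : Node) (k : ℕ) (h : Mv (shape a.1) k) : shape (ch a k h).1 = mv (shape a.1) k := by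
  simp [ch, shape]

theorem child_ch {a b : Node} (h : Child a b) : ∃ k hk, b = ch a k hk := by
  obtain ⟨c, e⟩ := h
  obtain ⟨h1, h2, h3⟩ := (add_iff (inv _ a.2) a.2 c).1 (e ▸ b.2)
  refine ⟨_, h2, Subtype.ext (e.trans ?_)⟩
  simp only [ch, ← h3, Nat.add_sub_cancel' h1]

theorem ch_inj {a : Node} {k l : ℕ} {hk hl} (h : shape (ch a k hk).1 = shape (ch a l hl).1) : k = l := by
  rw [ch_shape, ch_shape] at h
  have a := cnt_mv hk k
  have b := cnt_mv hl k
  rw [h, b, if_pos rfl] at a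
  by_contra e
  rw [if_neg e] at a
  omega

def Aut (φ : Node ≃ Node) : Prop := ∀ a b, Child a b ↔ Child (φ a) (φ b)

theorem Aut.symm {φ : Node ≃ Node} (h : Aut φ) : Aut φ.symm := fun a b => by
  rw [h (φ.symm a) (φ.symm b)]; simp

theorem Aut.len {φ : Node ≃ Node} (h : Aut φ) : ∀ l hl, (φ ⟨l, hl⟩).1.length = l.length
  | [], hl => by
    rcases e : (φ ⟨[], hl⟩).1 with _ | ⟨c, l⟩
    · rfl
    · have : IsT (c :: l) := e ▸ (φ ⟨[], hl⟩).2
      obtain ⟨d, hd⟩ := (h.symm ⟨l, this.1⟩ (φ ⟨[], hl⟩)).1 ⟨c, e⟩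
      simp at hd
  | c :: l, hl => by
    obtain ⟨d, hd⟩ := (h ⟨l, hl.1⟩ ⟨c :: l, hl⟩).1 ⟨c, rfl⟩
    rw [hd, List.length_cons, h.len l, List.length_cons]

theorem Aut.shape_eq {φ : Node ≃ Node} (h : Aut φ) (a : Node) : shape a.1 = shape (φ a).1 := by
  refine main (R := fun S T => ∃ φ, Aut φ ∧ ∃ a, S = shape a.1 ∧ T = shape (φ a).1) ?_ ?_ ?_ ?_
    ⟨φ, h, a, rfl, rfl⟩
  · rintro _ _ ⟨φ, h, a, rfl, rfl⟩
    exact ⟨φ.symm, h.symm, φ a, rfl, by simp⟩
  · rintro _ _ ⟨φ, h, a, rfl, rfl⟩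
    exact (inv _ a.2).2.2.1
  · rintro _ _ ⟨φ, h, a, rfl, rfl⟩
    rw [(inv _ a.2).2.2.2, (inv _ (φ a).2).2.2.2]
    exact (h.len a.1 a.2).symm
  · rintro _ _ ⟨φ, h, a, rfl, rfl⟩
    have : ∀ k, ∃ l, ∀ hk : Mv (shape a.1) k, ∃ hl, φ (ch a k hk) = ch (φ a) l hl := fun k => by
      by_cases hk : Mv (shape a.1) k
      · obtain ⟨l, hl, e⟩ := child_ch ((h _ _).1 (ch_child a k hk))
        exact ⟨l, fun _ => ⟨hl, e⟩⟩
      · exact ⟨0, fun h => absurd h hk⟩
    choose f hf e using this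
    refine ⟨f, fun k hk => ⟨hf k hk, φ, h, ch a k hk, (ch_shape _ _ _).symm, ?_⟩, fun k l hk hl e' => ?_⟩
    · rw [e, ch_shape]
    · have : φ (ch a k hk) = φ (ch a l hl) := by
        rw [e, e]; simp only [e']
      exact ch_inj (congrArg (fun x : Node => shape x.1) (φ.injective this))

theorem result (φ : Node ≃ Node) (h : ∀ a b, Child a b ↔ Child (φ a) (φ b)) (a : Node) : φ a = a := by
  have h : Aut φ := h
  obtain ⟨l, hl⟩ := a
  induction l with
  | nil => exact Subtype.ext (List.length_eq_zero_iff.1 (h.len [] hl))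
  | cons c l ih =>
    have p : Child ⟨l, hl.1⟩ ⟨c :: l, hl⟩ := ⟨c, rfl⟩
    have q := (h _ _).1 p
    rw [ih hl.1] at q
    obtain ⟨k, hk, e1⟩ := child_ch p
    obtain ⟨j, hj, e2⟩ := child_ch q
    have := h.shape_eq ⟨c :: l, hl⟩
    rw [e2] at this
    rw [e2]
    rw [e1] at this ⊢
    obtain rfl := ch_inj this
    rfl

end Pool.Agent.Results.MP_c76eb3_co.Full
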